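import Mathlib
import Pool.Agent.R881.TChar

/-!
MP_67c2f3_gt, Q1 and Q2 (negative answers): an open subgroup of index 3 which is a topological
direct summand and autocharacterized, but not `T`-characterized.
-/

open Filter Topology
open Pool.Agent.R881.TChar

namespace Pool.Agent.Results.MP_67c2f3_gt.FiniteIndexNotTChar

/-- The group `(⊕_ω ℤ/2) ⊕ ℤ/3` with the discrete topology. -/
def X3 : Type := (ℕ →₀ ZMod 2) × ZMod 3

noncomputable instance : AddCommGroup X3 := inferInstanceAs (AddCommGroup ((ℕ →₀ ZMod 2) × ZMod 3))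

instance : TopologicalSpace X3 := ⊥

instance : DiscreteTopology X3 := ⟨rfl⟩

/-- The subgroup `⊕_ω ℤ/2`. -/
noncomputable def H3 : AddSubgroup X3 := (AddMonoidHom.snd (ℕ →₀ ZMod 2) (ZMod 3)).ker

/-- The subgroup `ℤ/3`. -/
noncomputable def Z3 : AddSubgroup X3 := (AddMonoidHom.fst (ℕ →₀ ZMod 2) (ZMod 3)).ker

theorem mem_H3 (x : X3) : x ∈ H3 ↔ x.2 = 0 := Iff.rfl

theorem mem_Z3 (x : X3) : x ∈ Z3 ↔ x.1 = 0 := Iff.rfl

theorem finiteIndex : H3.FiniteIndex := by
  haveI : Finite (AddMonoidHom.snd (ℕ →₀ ZMod 2) (ZMod 3)).range := inferInstance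
  constructor
  have h := AddSubgroup.index_ker (AddMonoidHom.snd (ℕ →₀ ZMod 2) (ZMod 3))
  intro h0
  have h1 : (AddMonoidHom.snd (ℕ →₀ ZMod 2) (ZMod 3)).ker.index = 0 := h0
  rw [h1] at h
  exact Nat.card_pos.ne h

/-- The coordinate characters of `H3`. -/
noncomputable def coord (n : ℕ) : Dual H3 :=
  { toFun := fun x => z2 ((x : X3).1 n)
    map_zero' := by
      show z2 (((0 : X3)).1 n) = 0
      exact map_zero z2
    map_add' := by
      intro x y
      show z2 (((x : X3).1 + (y : X3).1) n) = _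
      rw [Finsupp.add_apply, map_add]
    continuous_toFun := continuous_of_discreteTopology }

theorem auto : Autocharacterized H3 := by
  refine ⟨coord, ?_, ?_⟩
  · intro h
    obtain ⟨n, hn⟩ := h.exists
    have h1 : coord n ⟨((Finsupp.single n 1, 0) : (ℕ →₀ ZMod 2) × ZMod 3), rfl⟩ = 0 := by
      rw [hn]; rfl
    have h2 : coord n ⟨((Finsupp.single n 1, 0) : (ℕ →₀ ZMod 2) × ZMod 3), rfl⟩ = half := by
      show z2 ((Finsupp.single n 1 : ℕ →₀ ZMod 2) n) = half
      rw [Finsupp.single_eq_same, z2_one]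
    rw [h1] at h2
    exact half_ne_zero h2.symm
  · ext x
    simp only [Set.mem_univ, iff_true]
    show Tendsto (fun n => z2 ((x : X3).1 n)) atTop (𝓝 0)
    rw [tendsto_zero_iff_eventually]
    have h1 : ((x : X3).1.support : Set ℕ).Finite := Finset.finite_toSet _
    obtain ⟨N, hN⟩ := h1.bddAbove
    filter_upwards [eventually_gt_atTop N] with n hn
    by_contra h2
    exact absurd (hN (Finset.mem_coe.2 (Finsupp.mem_support_iff.2 h2))) (not_le.2 hn)

theorem summand : TopDirectSummand H3 := by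
  refine ⟨Z3, ?_⟩
  refine ⟨continuous_of_discreteTopology, ?_, ?_, ?_⟩
  · intro s _
    exact isOpen_discrete _
  · rintro ⟨⟨a, ha⟩, ⟨b, hb⟩⟩ ⟨⟨c, hc⟩, ⟨d, hd⟩⟩ h
    rw [mem_H3] at ha hc
    rw [mem_Z3] at hb hd
    have h1 : (a + b).1 = (c + d).1 := congrArg Prod.fst h
    have h2 : (a + b).2 = (c + d).2 := congrArg Prod.snd h
    have e1 : (a + b).1 = a.1 + b.1 := rfl
    have e2 : (a + b).2 = a.2 + b.2 := rfl
    have e3 : (c + d).1 = c.1 + d.1 := rfl
    have e4 : (c + d).2 = c.2 + d.2 := rfl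
    rw [e1, e3, hb, hd, add_zero, add_zero] at h1
    rw [e2, e4, ha, hc, zero_add, zero_add] at h2
    have h3 : a = c := Prod.ext h1 (ha.trans hc.symm)
    have h4 : b = d := Prod.ext (hb.trans hd.symm) h2
    subst h3 h4
    rfl
  · intro x
    refine ⟨(⟨((x.1, 0) : (ℕ →₀ ZMod 2) × ZMod 3), rfl⟩,
      ⟨((0, x.2) : (ℕ →₀ ZMod 2) × ZMod 3), rfl⟩), ?_⟩
    apply Prod.ext
    · exact add_zero _
    · exact zero_add _

/-- The element `(0, 1)`. -/
def g1 : X3 := ((0, 1) : (ℕ →₀ ZMod 2) × ZMod 3)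

theorem three_g1 : 3 • g1 = 0 := by
  apply Prod.ext
  · show 3 • (0 : ℕ →₀ ZMod 2) = 0
    simp
  · show 3 • (1 : ZMod 3) = 0
    decide

theorem two_mem (a : ℕ →₀ ZMod 2) (c : ZMod 3) :
    2 • (((a, c) : (ℕ →₀ ZMod 2) × ZMod 3) : X3) = (2 * c.val) • g1 := by
  apply Prod.ext
  · show 2 • a = (2 * c.val) • (0 : ℕ →₀ ZMod 2)
    rw [smul_zero]
    ext i
    rw [Finsupp.smul_apply, Finsupp.zero_apply]
    generalize a i = z
    revert z
    decide
  · show 2 • c = (2 * c.val) • (1 : ZMod 3)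
    revert c
    decide

theorem not_tChar : ¬ TCharacterized H3 := by
  rintro ⟨w, hw, hH⟩
  have hfin : {g : Dual X3 | ∃ w' : Dual X3, g = 2 • w'}.Finite := by
    have h1 : {u : AddCircle (1 : ℝ) | 3 • u = 0}.Finite :=
      AddCircle.finite_torsion (1 : ℝ) (by norm_num)
    refine Set.Finite.of_finite_image (f := fun g : Dual X3 => g g1) (h1.subset ?_) ?_
    · rintro _ ⟨g, _, rfl⟩
      show 3 • g g1 = 0
      rw [← map_nsmul, three_g1, map_zero]
    · rintro g ⟨w1, rfl⟩ g' ⟨w2, rfl⟩ h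
      have h' : (2 • w1 : Dual X3) g1 = (2 • w2 : Dual X3) g1 := h
      rw [nsmul_apply, nsmul_apply] at h'
      ext x
      rw [nsmul_apply, nsmul_apply, ← map_nsmul, ← map_nsmul]
      have e2 : 2 • x = (2 * x.2.val) • g1 := two_mem x.1 x.2
      rw [e2, mul_nsmul, map_nsmul, map_nsmul, map_nsmul, map_nsmul, h']
  have h2 := hw.eventually_nsmul_eq_zero 2 _ hfin (fun n => ⟨w n, rfl⟩)
  have h3 : g1 ∈ (H3 : Set X3) := by
    rw [hH]
    apply tendsto_nhds_of_eventually_eq
    filter_upwards [h2] with n hn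
    have h4 : 2 • w n g1 = 0 := by
      have : (2 • w n : Dual X3) g1 = 0 := by rw [hn]; rfl
      rwa [nsmul_apply] at this
    have h5 : 3 • w n g1 = 0 := by rw [← map_nsmul, three_g1, map_zero]
    have h6 : (3 : ℕ) • w n g1 = 2 • w n g1 + w n g1 := by
      rw [succ_nsmul]
    rw [h5, h4, zero_add] at h6
    exact h6.symm
  have h4 : (1 : ZMod 3) = 0 := h3
  exact absurd h4 (by decide)

/-- **Q1 and Q2 of MP_67c2f3_gt, negated form.** There are a (discrete) topological abelian group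
`X` and an open subgroup `H` of finite index which is autocharacterized and a topological direct
summand of `X`, but `H` is not `T`-characterized in `X`. -/
theorem result : ∃ (X : Type) (_ : AddCommGroup X) (_ : TopologicalSpace X) (H : AddSubgroup X),
    IsTopologicalAddGroup X ∧ T2Space X ∧ IsOpen (H : Set X) ∧ H.FiniteIndex ∧
      Autocharacterized H ∧ TopDirectSummand H ∧ ¬ TCharacterized H :=
  ⟨X3, inferInstance, inferInstance, H3, inferInstance, inferInstance, isOpen_discrete _,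
    finiteIndex, auto, summand, not_tChar⟩

end Pool.Agent.Results.MP_67c2f3_gt.FiniteIndexNotTChar
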